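import Pool.Agent.H20.ER3.Lib

/-!
# MP_816b90_co: in a minimal odd hole every root is the interior of a path
-/

set_option autoImplicit false

namespace Pool.Agent.H5.ER3

open Pool.Agent.H48.ER Pool.Agent.H52.ER2 Pool.Agent.H66.ER2 Pool.Agent.H20.ER3

variable {V : Type} {G : SimpleGraph V} {R : Set V}

/-- one more vertex with a neighbour in the connected set -/
theorem cn_insert {F : Set V} {c : V} (hF : Cn G F) (hc : ∃ f ∈ F, G.Adj c f) :
    Cn G (insert c F) := by
  obtain ⟨f, hf, hcf⟩ := hc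
  intro T hT hne hcl
  have h1 : (T ∩ F).Nonempty := by
    obtain ⟨u, hu⟩ := hne
    rcases hT hu with h | h
    · rw [h] at hu
      exact ⟨f, hcl c hu f (Or.inr hf) hcf, hf⟩
    · exact ⟨u, hu, h⟩
  have h2 : T ∩ F = F := by
    refine hF (T ∩ F) Set.inter_subset_right h1 ?_
    intro u hu w hw ha
    exact ⟨hcl u hu.1 w (Or.inr hw) ha, hw⟩
  have h3 : F ⊆ T := by
    intro w hw
    rw [← h2] at hw
    exact hw.1
  refine Set.Subset.antisymm hT ?_
  intro w hw
  rcases hw with h | h
  · rw [h]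
    exact hcl f (h3 hf) c (Or.inl rfl) hcf.symm
  · exact h3 h

/-- the interior of a chordless path -/
theorem ip_inner {m : ℕ} {c d : V} {P : Set V} (h : IP G m c d P) (hm : 2 ≤ m) :
    Cn G (P \ {c, d}) ∧ (∃ f ∈ P \ {c, d}, G.Adj c f) ∧ (∃ f ∈ P \ {c, d}, G.Adj d f) ∧
      P = insert c (insert d (P \ {c, d})) := by
  obtain ⟨g, hg, g0, gm, hP⟩ := IP.pf h
  have key : P \ {c, d} = seg g 1 (m - 1) := by
    ext v
    constructor
    · rintro ⟨hv, hn⟩
      rw [hP] at hv
      obtain ⟨k, _, hk, rfl⟩ := hv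
      have k0 : k ≠ 0 := fun e => hn (by rw [e, g0]; exact Or.inl rfl)
      have km : k ≠ m := fun e => hn (by rw [e, gm]; exact Or.inr rfl)
      exact mem_seg (by omega) (by omega)
    · rintro ⟨k, h1, h2, rfl⟩
      refine ⟨by rw [hP]; exact mem_seg (Nat.zero_le _) (by omega), ?_⟩
      rintro (e | e)
      · have := hg.inj k 0 (by omega) (by omega) (e.trans g0.symm)
        omega
      · have := hg.inj k m (by omega) le_rfl ((Set.mem_singleton_iff.1 e).trans gm.symm)
        omega
  refine ⟨?_, ?_, ?_, ?_⟩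
  · rw [key]
    exact ip_cn (hg.seg (i := 1) (j := m - 1) (by omega) (by omega))
  · rw [key]
    refine ⟨g 1, mem_seg le_rfl (by omega), ?_⟩
    rw [← g0, hg.adj 0 1 (by omega) (by omega)]
    omega
  · rw [key]
    refine ⟨g (m - 1), mem_seg (by omega) le_rfl, ?_⟩
    rw [← gm, hg.adj m (m - 1) le_rfl (by omega)]
    omega
  · ext v
    constructor
    · intro hv
      by_cases h1 : v = c
      · exact Or.inl h1
      · by_cases h2 : v = d
        · exact Or.inr (Or.inl h2)
        · refine Or.inr (Or.inr ⟨hv, ?_⟩)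
          rintro (e | e)
          · exact h1 e
          · exact h2 e
    · rintro (e | e | e)
      · rw [e]; exact h.left_mem
      · rw [e]; exact h.right_mem
      · exact e.1

theorem pf_HA (hGW : U_GW) (hCON : T_CON) : U_HA := by
  intro V _ o G R F n x y X hE hM
  obtain ⟨c, rfl, hSc⟩ := root_adj hM.hs.l
  obtain ⟨d, rfl, hSd⟩ := root_adj hM.hs.r
  have hn2 : 2 ≤ n := hM.hs.two
  have hcd : ¬ G.Adj c d := by
    intro h
    have h1 : n = 1 := hM.hs.ip.adj_iff.1 (mg_ll.2 h)
    omega
  have hne : c ≠ d := by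
    intro h
    exact hM.hs.ip.ne (by omega) (by rw [h])
  have hcR := hSc.1
  have hdR := hSd.1
  have hFR := hSc.2.1
  have hCF := hSc.2.2.1
  have hcF : c ∉ F := fun h => hcR (hFR h)
  have hdF : d ∉ F := fun h => hdR (hFR h)
  have hD1 : Cn G (insert d F) := cn_insert hCF hSd.2.2.2
  have hD : Cn G (insert c (insert d F)) := by
    refine cn_insert hD1 ?_
    obtain ⟨f, hf, ha⟩ := hSc.2.2.2
    exact ⟨f, Or.inr hf, ha⟩
  obtain ⟨m, P, hP, hPD⟩ := hCON V G _ c d hD (Or.inl rfl) (Or.inr (Or.inl rfl))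
  have hm1 : m ≠ 1 := fun e => hcd (hP.adj_iff.2 e)
  have hm0 : m ≠ 0 := by
    intro e
    rw [e] at hP
    exact hne hP.eq_of_zero.1
  have hm2 : 2 ≤ m := by omega
  obtain ⟨hC0, hc0, hd0, hPe⟩ := ip_inner hP hm2
  have h0F : P \ {c, d} ⊆ F := by
    rintro v ⟨hv, hn⟩
    rcases hPD hv with h | h | h
    · exact absurd (Or.inl h) hn
    · exact absurd (Or.inr h) hn
    · exact h
  have hEv : Even m := by
    refine hE m c d P hP hcR hdR hm1 ?_
    intro w hw
    rcases hPD hw with h | h | h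
    · exact Or.inl h
    · exact Or.inr (Or.inl h)
    · exact Or.inr (Or.inr (hFR h))
  by_cases hEq : P \ {c, d} = F
  · refine ⟨c, d, m, rfl, rfl, hSc, hSd, hcd, ⟨hm2, hcF, hdF, ?_⟩, hEv⟩
    rw [hEq] at hPe
    rw [← hPe]
    exact hP
  · exfalso
    generalize hF0 : P \ {c, d} = F0 at *
    have hlt : F0.ncard < F.ncard :=
      Set.ncard_lt_ncard (Set.ssubset_iff_subset_ne.2 ⟨h0F, hEq⟩) (Set.toFinite _)
    have hS0 : Sees G R F0 c := ⟨hcR, h0F.trans hFR, hC0, hc0⟩
    have hS1 : Sees G R F0 d := ⟨hdR, h0F.trans hFR, hC0, hd0⟩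
    have hnm : (Sum.inr F0 : V ⊕ Set V) ∉ X := by
      intro hX
      obtain ⟨g, hg, g0, gn, hXg⟩ := IP.pf hM.hs.ip
      rw [hXg] at hX
      obtain ⟨k, _, hk, hgk⟩ := hX
      have a0 : (MG G R).Adj (g k) (g 0) := by rw [hgk, g0]; exact hS0
      have a1 : (MG G R).Adj (g k) (g n) := by rw [hgk, gn]; exact hS1
      rw [hg.adj k 0 hk (Nat.zero_le _)] at a0
      rw [hg.adj k n hk le_rfl] at a1
      have : n = 2 := by omega
      have ho := hM.odd
      rw [this] at ho
      revert ho
      decide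
    have hHS : HS (MG G R) n (Sum.inl c) (Sum.inl d) (Sum.inr F0) X := by
      refine ⟨hM.hs.ip, hn2, hnm, hS0, hS1, ?_⟩
      intro w hw ha
      obtain ⟨a, rfl, hSa⟩ := root_adj ha
      exact hM.hs.int _ hw (mg_rl.2 (hSa.mono h0F hFR hCF))
    have hAl : Al o G R (insert (Sum.inr F0) X) := by
      constructor
      · intro F' hF' r hr hrZ
        have hrX : (Sum.inl r : V ⊕ Set V) ∈ X := by
          rcases hrZ with h | h
          · cases h
          · exact h
        rcases hF' with h | h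
        · have e : F' = F0 := Sum.inr.inj h
          rw [e]
          have := hM.al.1 F (Or.inl rfl) r hr (Or.inr hrX)
          exact ⟨fun h' => this.1 (h0F h'), fun f hf => this.2 f (h0F hf)⟩
        · exact hM.al.1 F' (Or.inr h) r hr (Or.inr hrX)
      · intro ho F1 h1 F2 h2
        have hsub := hM.al.2 ho
        have hX : ∀ F', (Sum.inr F' : V ⊕ Set V) ∈ X → False := by
          intro F' h
          have e : F' = F := hsub (show F' ∈ rt _ from Or.inr h) (show F ∈ rt _ from Or.inl rfl)
          rw [e] at h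
          exact hM.hs.nm h
        rcases h1 with h1 | h1
        · rcases h2 with h2 | h2
          · exact (Sum.inr.inj h1).trans (Sum.inr.inj h2).symm
          · exact (hX _ h2).elim
        · exact (hX _ h1).elim
    have hle := hM.mn n _ _ _ X hHS hM.odd hAl
    have hlt2 := (hGW V (insert (Sum.inr F) X) (insert (Sum.inr F0) X) F (Or.inl rfl)).1 F0 hlt
      (by
        intro F' hF'
        rcases hF' with h | h
        · exact Or.inl (Sum.inr.inj h)
        · refine Or.inr ⟨Or.inr h, ?_⟩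
          intro e
          rw [Set.mem_singleton_iff.1 e] at h
          exact hM.hs.nm h)
    exact absurd hle (not_le.2 hlt2)

end Pool.Agent.H5.ER3
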